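import Pool.Agent.Helper18.FM.GoalsA
import Pool.Agent.Helper27.TRB.Seq

/-!
# FM, packet FM-FSEQ: the sharp bound and the minimising sequences
-/

open Complex Metric Set Filter Topology MeasureTheory
open scoped ContDiff ComplexConjugate ComplexOrder Manifold Matrix

namespace Pool.Agent.Helper72.FM.FSEQ

open Pool.Agent.Helper95.Lin Pool.Agent.Helper16.Abund Pool.Agent.Helper92.Orb
  Pool.Agent.Helper10.SP Pool.Agent.Helper95.RK Pool.Agent.Helper57.HS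
  Pool.Agent.Helper15.HS Pool.Agent.Helper15.GS Pool.Agent.Helper57.RBC Pool.Agent.Helper82.HB
  Pool.Agent.Helper57.HX
open Pool.Agent.Helper27.TRB (tw smul_tw)
open Pool.Agent.Helper18.FM

universe u

/-- The invariance of `tr (g Q⁻¹)` for every metric `Q`. -/
theorem tS_inv (hFCL : S_FCL.{u}) {n m : ℕ} {T : Set (Cn n)} {G : Type u} [Group G]
    {R : G → Cn n → Cn n → Prop} {σ : Cn n → Matrix (Fin n) (Fin m) ℂ}
    {h : Cn n → Matrix (Fin m) (Fin m) ℂ} (hSF : SF T R σ h)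
    {Q : Cn n → Matrix (Fin n) (Fin n) ℂ} (hQ : KEt T R Q) : InvF T R (tS σ h Q) :=
  (hFCL T R σ h hSF Q (fun x => Q x - rho Q x) hQ (fun x _ => by simp)).2.1

/-- FMON. -/
theorem fmon (hMAXF : Pool.Agent.Helper95.HS.S_MAXF.{u}) (hFCL : S_FCL.{u}) : S_FMON.{u} := by
  intro n m T G _ R H' σ h χ hket hSF htrb s hs ε Q hε hQ x hx
  obtain ⟨-, hinv, -, -, -, hpt⟩ := hFCL T R σ h hSF Q (fun x => (ε : ℂ) • tw χ ε H' x) hQ.ket
    hQ.eq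
  obtain ⟨x₀, hx₀, hmax, hpsd⟩ := hMAXF T R hket.et _ hinv
  have hQp := hQ.ket.posDef x₀ hx₀
  obtain ⟨hg, hT0, hAA, -, -, hcl, -⟩ := hpt x₀ hx₀
  have hNK : 0 ≤ NKs σ h Q x₀ + (Matrix.trace (χ x₀ * (Q x₀)⁻¹ * gS σ h x₀ * (Q x₀)⁻¹)).re :=
    htrb x₀ hx₀ _ hQp.posSemidef.inv
  have hle : (trL Q (tS σ h Q) x₀).re ≤ 0 := by
    have h1 := tr_mul_nonneg hQp.posSemidef.inv hpsd
    rw [Matrix.mul_neg, Matrix.trace_neg, Complex.neg_re] at h1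
    unfold trL
    linarith
  have hη : (Matrix.trace ((ε : ℂ) • tw χ ε H' x₀ * (Q x₀)⁻¹ * gS σ h x₀ * (Q x₀)⁻¹)).re =
      ε * (Matrix.trace (H' x₀ * (Q x₀)⁻¹ * gS σ h x₀ * (Q x₀)⁻¹)).re +
        (Matrix.trace (χ x₀ * (Q x₀)⁻¹ * gS σ h x₀ * (Q x₀)⁻¹)).re := by
    rw [smul_tw χ H' hε, Matrix.add_mul, Matrix.add_mul, Matrix.add_mul, Matrix.trace_add,
      Complex.add_re, Matrix.smul_mul, Matrix.smul_mul, Matrix.smul_mul, Matrix.trace_smul,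
      smul_eq_mul, Complex.re_ofReal_mul]
  obtain ⟨ht0, hb0, ha0, hcs⟩ := cs_tr (hket.posDef x₀ hx₀) hg hQp
  have hsb := hs x₀ hx₀
  simp only [hη] at hcl
  rw [hcl] at hle
  have hcs' : (tS σ h Q x₀) ^ 2 ≤
      (Matrix.trace (H' x₀ * (Q x₀)⁻¹ * gS σ h x₀ * (Q x₀)⁻¹)).re *
        (Matrix.trace (gS σ h x₀ * (H' x₀)⁻¹)).re := hcs
  set t := tS σ h Q x₀ with ht
  set a := (Matrix.trace (H' x₀ * (Q x₀)⁻¹ * gS σ h x₀ * (Q x₀)⁻¹)).re with ha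
  set b := (Matrix.trace (gS σ h x₀ * (H' x₀)⁻¹)).re with hb
  have h1 : ε * a ≤ t := by linarith
  have h2 : ε * t ≤ s := by
    rcases hT0.eq_or_lt with h0 | h0
    · rw [← h0, mul_zero]
      linarith
    · have h3 : ε * t * t ≤ s * t := by
        calc ε * t * t = ε * t ^ 2 := by ring
          _ ≤ ε * (a * b) := mul_le_mul_of_nonneg_left hcs' hε.le
          _ = (ε * a) * b := by ring
          _ ≤ t * b := mul_le_mul_of_nonneg_right h1 hb0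
          _ ≤ t * s := mul_le_mul_of_nonneg_left hsb h0.le
          _ = s * t := by ring
      exact le_of_mul_le_mul_right h3 h0
  exact (mul_le_mul_of_nonneg_left (hmax x hx) hε.le).trans h2

/-- FSEQ. -/
theorem fseq (hMAXF : Pool.Agent.Helper95.HS.S_MAXF.{u})
    (hCMP : Pool.Agent.Helper95.HS.S_CMP.{u}) (hFCL : S_FCL.{u})
    (hFEX : S_FEX.{u}) (hFMON : S_FMON.{u}) (hFFM : S_FFM.{u}) (hRFAM : S_RFAM.{u}) :
    S_FSEQ.{u} := by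
  intro n m T G _ R H σ h χ c₀ ψ D
  have hH := D.ket
  have hT := hH.et.isOpen
  obtain ⟨p₀, hp₀⟩ := hH.et.nonempty
  obtain ⟨-, hF2, hF3⟩ := hFFM T R H σ h χ c₀ ψ D
  have hinvf : ∀ Q : Cn n → Matrix (Fin n) (Fin n) ℂ, KEt T R Q →
      InvF T R (fun x => (Matrix.trace (gS σ h x * (Q x)⁻¹)).re) := fun Q hQ =>
    tS_inv hFCL D.sf hQ
  have hgp : ∀ x ∈ T, (gS σ h x).PosSemidef := fun x hx =>
    (D.sf.posDef x hx).posSemidef.mul_mul_conjTranspose_same (σ x)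
  set A : Set ℝ := {s | ∃ (N : ℝ) (φ : Cn n → ℝ) (H' : Cn n → Matrix (Fin n) (Fin n) ℂ),
    Fam T R H N φ H' ∧ SupB T (gS σ h) H' s} with hA
  have hne : A.Nonempty := by
    obtain ⟨x₀, hx₀, hmax, -⟩ := hMAXF T R hH.et _ (hinvf H hH)
    refine ⟨_, 0, fun _ => 0, H, ⟨hH, le_rfl, ⟨contDiffOn_const, fun _ _ _ _ => rfl⟩, ?_⟩, hmax⟩
    intro x _
    rw [Pool.Agent.Helper94.HS.LM_const]
    simp
  have hlow : ∀ s ∈ A, 0 ≤ s := by
    rintro s ⟨N, φ, H', hF, hs⟩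
    refine le_trans ?_ (hs p₀ hp₀)
    exact tr_mul_nonneg (hgp p₀ hp₀) (hF.ket.posDef p₀ hp₀).posSemidef.inv
  have hbdd : BddBelow A := ⟨0, fun s hs => hlow s hs⟩
  set s := sInf A with hs
  have hs0 : 0 ≤ s := le_csInf hne hlow
  have hex : ∀ j : ℕ, ∃ (S N : ℝ) (φ : Cn n → ℝ) (H' : Cn n → Matrix (Fin n) (Fin n) ℂ)
      (ε : ℝ) (Q : Cn n → Matrix (Fin n) (Fin n) ℂ),
      s ≤ S ∧ S ≤ s + 1 / ((j : ℝ) + 1) ∧ Fam T R H N φ H' ∧ SupB T (gS σ h) H' S ∧ 0 < ε ∧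
      ε ≤ 1 / ((j : ℝ) + 1) ∧ ε * N ≤ 1 / ((j : ℝ) + 1) ∧
      (∀ x ∈ T, (H x - (ε : ℂ) • H' x - χ x).PosSemidef) ∧ TKE T R (tw χ ε H') ε Q ∧
      (∀ x ∈ T, ε * (Matrix.trace (gS σ h x * (Q x)⁻¹)).re ≤ S) ∧
      ∃ x ∈ T, s ≤ ε * (Matrix.trace (gS σ h x * (Q x)⁻¹)).re := by
    intro j
    have hj : (0 : ℝ) < 1 / ((j : ℝ) + 1) := by positivity
    set d : ℝ := 1 / ((j : ℝ) + 1) with hd
    obtain ⟨S, ⟨N, φ, H', hF, hS⟩, hlt⟩ := exists_lt_of_csInf_lt hne (show sInf A < s + d by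
      rw [← hs]; linarith)
    obtain ⟨c, hc, hcm⟩ := hCMP T R H' H hF.ket hH
    have hN := hF.nn
    set ε : ℝ := min (min d (d / (N + 1))) (c / 2) with hε
    have hε0 : 0 < ε := by
      rw [hε]
      refine lt_min (lt_min hj (by positivity)) (by positivity)
    have he1 : ε ≤ d := (min_le_left _ _).trans (min_le_left _ _)
    have he2 : ε ≤ d / (N + 1) := (min_le_left _ _).trans (min_le_right _ _)
    have he4 : ε ≤ c / 2 := min_le_right _ _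
    obtain ⟨Q, hQ⟩ := hFEX T R H σ h χ c₀ ψ D (tw χ ε H') (hF2 H' ε hF.ket hε0).1 ε hε0
    refine ⟨S, N, φ, H', ε, Q, csInf_le hbdd ⟨N, φ, H', hF, hS⟩, hlt.le, hF, hS, hε0, he1, ?_,
      ?_, hQ, hFMON T R H' σ h χ hF.ket D.sf D.trb S hS ε Q hε0 hQ, ?_⟩
    · rw [le_div_iff₀ (by positivity)] at he2
      nlinarith
    · intro x hx
      have e : H x - (ε : ℂ) • H' x - χ x = ((1 / 2 : ℝ) : ℂ) • (H x - (c : ℂ) • H' x) +
          ((c / 2 - ε : ℝ) : ℂ) • H' x + ((1 / 2 : ℝ) : ℂ) • (H x - (2 : ℂ) • χ x) := by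
        push_cast
        module
      rw [e]
      refine (((hcm x hx).smul (Complex.zero_le_real.2 (by norm_num))).add
        ((hF.ket.posDef x hx).posSemidef.smul (Complex.zero_le_real.2 (by linarith)))).add
        ((D.le x hx).smul (Complex.zero_le_real.2 (by norm_num)))
    · obtain ⟨x₀, hx₀, hmax, -⟩ := hMAXF T R hH.et _ (hinvf Q hQ.ket)
      refine ⟨x₀, hx₀, ?_⟩
      have hFQ := (hRFAM T R H hH _ _ _ (hF3 N φ H' hF ε hε0) ε Q hε0 hQ).1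
      refine csInf_le hbdd ⟨_, _, _, hFQ, ?_⟩
      intro x hx
      rw [tr_smul_inv (hQ.ket.posDef x hx) hε0]
      exact mul_le_mul_of_nonneg_left (hmax x hx) hε0.le
  choose S N φ H' ε Q h1 h2 h3 h4 h5 h6 h7 h8 h9 h10 h11 using hex
  exact ⟨s, S, N, φ, H', ε, Q, ⟨hs0, h1, h2, h3, h4, h5, h6, h7, h8, h9, h10, h11⟩⟩

/-- FSEQ with FMON proved. -/
theorem t (hMAXF : Pool.Agent.Helper95.HS.S_MAXF.{u})
    (hCMP : Pool.Agent.Helper95.HS.S_CMP.{u}) (hFCL : S_FCL.{u})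
    (hFEX : S_FEX.{u}) (hFFM : S_FFM.{u}) (hRFAM : S_RFAM.{u}) :
    S_FMON.{u} ∧ S_FSEQ.{u} :=
  ⟨fmon hMAXF hFCL, fseq hMAXF hCMP hFCL hFEX (fmon hMAXF hFCL) hFFM hRFAM⟩

end Pool.Agent.Helper72.FM.FSEQ
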